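import Pool.Agent.helper1.FI.SpecQ2

set_option autoImplicit false

namespace Pool.Agent.FI

open Pool.Agent.helper58.DC Pool.Agent.DI Pool.Agent.GR Pool.Agent.OB

open Classical in
/-- Restriction to a subgroup in terms of the irreducible characters. -/
theorem QN1_res (hEXP : EXP_stmt) (hB2 : B2_stmt) {G : Type} [Group G] [Finite G]
    (K : Subgroup G) (φ : G → ℂ) (hφ : ∀ k ∈ K, ∀ x, φ (k * x * k⁻¹) = φ x) :
    ∀ y ∈ K, φ y = ∑ ψ ∈ (hB2 G K).1.toFinset, mt K φ ψ * ψ y := by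
  have : Fintype G := Fintype.ofFinite G
  obtain ⟨hfin, hB⟩ := hB2 G K
  set S := hfin.toFinset with hS
  have hSm : ∀ ψ, ψ ∈ S ↔ ψ ∈ IrrOn K := fun ψ => Set.Finite.mem_toFinset hfin
  set z : G → ℂ := fun x => (if x⁻¹ ∈ K then φ x⁻¹ else 0) - ∑ ψ ∈ S, mt K φ ψ * ψ x⁻¹ with hz
  have hCF : CF K z := by
    refine ⟨fun h hh x => ?_, fun x hx => ?_⟩
    · have e : (h * x * h⁻¹)⁻¹ = h * x⁻¹ * h⁻¹ := by group
      simp only [hz, e]
      have h1 : (h * x⁻¹ * h⁻¹ ∈ K) ↔ x⁻¹ ∈ K := by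
        constructor
        · intro h2
          have h3 := K.mul_mem (K.mul_mem (K.inv_mem hh) h2) hh
          have h4 : h⁻¹ * (h * x⁻¹ * h⁻¹) * h = x⁻¹ := by group
          rwa [h4] at h3
        · intro h2
          exact K.mul_mem (K.mul_mem hh h2) (K.inv_mem hh)
      congr 1
      · by_cases hx : x⁻¹ ∈ K
        · rw [if_pos hx, if_pos (h1.mpr hx), hφ h hh]
        · rw [if_neg hx, if_neg (fun h2 => hx (h1.mp h2))]
      · exact Finset.sum_congr rfl fun ψ hψ => by rw [(hB ψ ((hSm ψ).mp hψ)).2.1 _ h hh]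
    · have hx' : x⁻¹ ∉ K := fun h => hx (by simpa using K.inv_mem h)
      simp only [hz, if_neg hx']
      rw [Finset.sum_eq_zero, sub_zero]
      intro ψ hψ
      rw [(hB ψ ((hSm ψ).mp hψ)).2.2.2.1 _ hx', mul_zero]
  have hz0 : z = 0 := by
    refine hEXP G K z hCF fun θ hθ => ?_
    have hcc : ∑ᶠ x, z x * θ x = 0 := by
      rw [finsum_eq_sum_of_fintype]
      rw [← Equiv.sum_comp (Equiv.inv G)]
      have e1 : ∀ x : G, z (Equiv.inv G x) * θ (Equiv.inv G x) =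
          (if x ∈ K then φ x * θ x⁻¹ else 0) - ∑ ψ ∈ S, mt K φ ψ * (ψ x * θ x⁻¹) := by
        intro x
        simp only [hz, Equiv.inv_apply, inv_inv, sub_mul, Finset.sum_mul, ite_mul, zero_mul, mul_assoc]
      rw [Finset.sum_congr rfl fun x _ => e1 x, Finset.sum_sub_distrib, Finset.sum_comm]
      have e2 : ∑ ψ ∈ S, ∑ x : G, mt K φ ψ * (ψ x * θ x⁻¹) = mt K φ θ * (Nat.card K : ℂ) := by
        rw [Finset.sum_eq_single θ]
        · rw [← Finset.mul_sum]
          have h := (hB θ hθ).2.2.2.2 θ hθ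
          rw [if_pos rfl, finsum_eq_sum_of_fintype] at h
          rw [h]
        · intro ψ hψ hne
          rw [← Finset.mul_sum]
          have h := (hB ψ ((hSm ψ).mp hψ)).2.2.2.2 θ hθ
          rw [if_neg hne, finsum_eq_sum_of_fintype] at h
          rw [h, mul_zero]
        · intro h
          exact absurd ((hSm θ).mpr hθ) h
      have e3 : ∑ x : G, (if x ∈ K then φ x * θ x⁻¹ else 0) = mt K φ θ * (Nat.card K : ℂ) := by
        unfold mt
        rw [div_mul_cancel₀]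
        · rw [finsum_mem_eq_finite_toFinset_sum _ (Set.toFinite (K : Set G)),
            Finset.sum_ite, Finset.sum_const_zero, add_zero]
          refine Finset.sum_congr ?_ fun _ _ => rfl
          ext x
          simp only [Finset.mem_filter, Finset.mem_univ, true_and, Set.Finite.mem_toFinset, SetLike.mem_coe]
        · have : 0 < Nat.card K := Nat.card_pos
          exact_mod_cast this.ne'
      rw [e2, e3, sub_self]
    unfold cc
    rw [hcc, zero_div]
  intro y hy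
  have h := congrFun hz0 y⁻¹
  simp only [hz, inv_inv, Pi.zero_apply, if_pos hy] at h
  exact sub_eq_zero.mp h

theorem QN1_cen (hSCH : SCH_stmt) (hB2 : B2_stmt) {G : Type} [Group G] [Finite G] (L : Subgroup G)
    (u : G) (ψ : G → ℂ) (hψ : ψ ∈ IrrOn (Cz L u)) (y : G) (hy : y ∈ Cz L u) :
    ψ (u * y) = ψ u / ψ 1 * ψ y := by
  have hcom : ∀ t ∈ Cz L u, t * u * t⁻¹ = u := by
    intro t ht
    have h1 : t ∈ Subgroup.centralizer {u} := ht.2
    rw [Subgroup.mem_centralizer_singleton_iff] at h1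
    rw [mul_inv_eq_iff_eq_mul]
    exact h1
  have h2 := hSCH G (Cz L u) ψ hψ y hy u
  have h3 : ∑ᶠ t ∈ ((Cz L u : Subgroup G) : Set G), ψ (y * (t * u * t⁻¹)) =
      (Nat.card (Cz L u) : ℂ) * ψ (y * u) := by
    rw [finsum_mem_congr rfl (g := fun _ => ψ (y * u)) (fun t ht => by rw [hcom t ht])]
    rw [finsum_mem_eq_finite_toFinset_sum _ (Set.toFinite _), Finset.sum_const, nsmul_eq_mul]
    congr 2
    rw [← Set.ncard_eq_toFinset_card, ← Nat.card_coe_set_eq]
    rfl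
  obtain ⟨⟨n, hn, h1n, _⟩, _⟩ := (hB2 G (Cz L u)).2 ψ hψ
  have hne : ψ 1 ≠ 0 := by rw [h1n]; exact_mod_cast hn.ne'
  have hc : (Nat.card (Cz L u) : ℂ) ≠ 0 := by exact_mod_cast (Nat.card_pos (α := Cz L u)).ne'
  have h4 : y * u = u * y := by
    have h5 := hcom y hy
    rw [mul_inv_eq_iff_eq_mul] at h5
    exact h5
  rw [h3, h4] at h2
  field_simp
  have h5 : (Nat.card (Cz L u) : ℂ) * (ψ 1 * ψ (u * y)) = (Nat.card (Cz L u) : ℂ) * (ψ u * ψ y) := by
    linear_combination h2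
  have h6 := mul_left_cancel₀ hc h5
  linear_combination h6

theorem QN1 (hEVM : EVM_stmt) (hIDM : IDM_stmt) (hSCH : SCH_stmt) (hB2 : B2_stmt)
    (hEXP : EXP_stmt) : QN1_stmt := by
  intro G _ _ M L θ u hu j hj hjh c hc φ hφ
  classical
  have : Fintype G := Fintype.ofFinite G
  have huK : u ∈ Cz L u := ⟨hu, Subgroup.mem_centralizer_singleton_iff.mpr rfl⟩
  have hKL : ∀ k ∈ Cz L u, k ∈ L := fun k hk => hk.1
  have hφc : ∀ k ∈ Cz L u, ∀ x, φ (k * x * k⁻¹) = φ x := fun k hk x =>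
    ((hB2 G L).2 φ hφ).2.1 x k (hKL k hk)
  set K := Cz L u with hK
  have hres := QN1_res hEXP hB2 K φ hφc
  set S := (hB2 G K).1.toFinset with hS
  have hSm : ∀ ψ, ψ ∈ S ↔ ψ ∈ IrrOn K := fun ψ => Set.Finite.mem_toFinset _
  have h1 : ev φ j u = ∑ ψ ∈ S, mt K φ ψ * (ψ u / ψ 1) * ev ψ j 1 := by
    unfold ev
    rw [finsum_eq_sum_of_fintype]
    have e1 : ∀ x : G, j x * φ (u * x) = ∑ ψ ∈ S, mt K φ ψ * (ψ u / ψ 1) * (j x * ψ (1 * x)) := by
      intro x
      by_cases hx : x ∈ K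
      · rw [hres (u * x) (K.mul_mem huK hx), Finset.mul_sum]
        refine Finset.sum_congr rfl fun ψ hψ => ?_
        rw [QN1_cen hSCH hB2 L u ψ ((hSm ψ).mp hψ) x hx, one_mul]
        ring
      · rw [hj x hx, zero_mul]
        refine (Finset.sum_eq_zero fun ψ _ => ?_).symm
        rw [zero_mul, mul_zero]
    rw [Finset.sum_congr rfl fun x _ => e1 x, Finset.sum_comm]
    refine Finset.sum_congr rfl fun ψ _ => ?_
    rw [← Finset.mul_sum, finsum_eq_sum_of_fintype]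
  have hBlsub : Bl M K θ ⊆ IrrOn K := fun ψ hψ => hψ.1
  have h2 : ∀ ψ ∈ IrrOn K, ψ ∉ Bl M K θ → ev ψ j 1 = 0 := by
    intro ψ hψ hn
    obtain ⟨hCF, hcc, _⟩ := hIDM G K (Bl M K θ) hBlsub
    have h3 := ((hEVM G K ψ hψ (eS K (Bl M K θ)) hCF 1 K.one_mem).1 j hj).2
    rw [hcc ψ hψ, if_neg hn, zero_mul] at h3
    have h4 : cv j (eS K (Bl M K θ)) = j := hjh
    rw [h4] at h3
    exact h3
  rw [h1]
  unfold dd
  have hfinB : (Bl M K θ).Finite := (hB2 G K).1.subset hBlsub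
  rw [finsum_mem_eq_finite_toFinset_sum _ hfinB, Finset.mul_sum]
  have hsub : hfinB.toFinset ⊆ S := by
    intro ψ hψ
    rw [Set.Finite.mem_toFinset] at hψ
    exact (hSm ψ).mpr (hBlsub hψ)
  rw [← Finset.sum_subset hsub]
  · refine Finset.sum_congr rfl fun ψ hψ => ?_
    rw [Set.Finite.mem_toFinset] at hψ
    rw [hc ψ hψ]
    ring
  · intro ψ hψ hn
    rw [h2 ψ ((hSm ψ).mp hψ) (fun h => hn (by rw [Set.Finite.mem_toFinset]; exact h)), mul_zero]

end Pool.Agent.FI
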