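import Pool.Agent.helper83.FI.SpecR

set_option autoImplicit false

namespace Pool.Agent.FI

open Pool.Agent.helper58.DC Pool.Agent.DI Pool.Agent.GR Pool.Agent.OB

theorem PLF_sumL (hCVF : CVF_stmt) {G : Type} [Group G] [Finite G] (n : ℕ) (c : ℕ → ℂ)
    (f : ℕ → G → ℂ) (b : G → ℂ) :
    cv (∑ k ∈ Finset.range n, c k • f k) b = ∑ k ∈ Finset.range n, c k • cv (f k) b := by
  obtain ⟨_, hadd, hsm, _⟩ := hCVF G
  induction n with
  | zero =>
    have h := (hsm 0 0 b).1
    simpa using h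
  | succ n ih =>
    rw [Finset.sum_range_succ, Finset.sum_range_succ, (hadd _ _ b).1, ih, (hsm _ _ _).1]

theorem PLF_sumR (hCVF : CVF_stmt) {G : Type} [Group G] [Finite G] (n : ℕ) (c : ℕ → ℂ)
    (f : ℕ → G → ℂ) (b : G → ℂ) :
    cv b (∑ k ∈ Finset.range n, c k • f k) = ∑ k ∈ Finset.range n, c k • cv b (f k) := by
  obtain ⟨_, hadd, hsm, _⟩ := hCVF G
  induction n with
  | zero =>
    have h := (hsm 0 b 0).2
    simpa using h
  | succ n ih =>
    rw [Finset.sum_range_succ, Finset.sum_range_succ, (hadd b _ _).2.1, ih, (hsm _ b _).2]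

theorem PLF_add (hCVF : CVF_stmt) {G : Type} [Group G] [Finite G] (a : G → ℂ) (k l : ℕ) :
    cvp a (k + l) = cv (cvp a k) (cvp a l) := by
  obtain ⟨hass, _, _, hu, _⟩ := hCVF G
  induction l with
  | zero => exact ((hu _).2).symm
  | succ l ih =>
    show cv (cvp a (k + l)) a = cv (cvp a k) (cv (cvp a l) a)
    rw [ih, hass]

theorem PLF_one (hCVF : CVF_stmt) {G : Type} [Group G] [Finite G] (a : G → ℂ) : cvp a 1 = a :=
  ((hCVF G).2.2.2.1 a).1

theorem PLF_comm (hCVF : CVF_stmt) {G : Type} [Group G] [Finite G] (a b : G → ℂ) (n : ℕ)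
    (c : ℕ → ℂ) (h : ∀ k, cv (cvp a (k + 1)) b = cv b (cvp a (k + 1))) :
    cv (plv n c a) b = cv b (plv n c a) := by
  unfold plv
  rw [PLF_sumL hCVF, PLF_sumR hCVF]
  exact Finset.sum_congr rfl fun k _ => by rw [h k]

theorem PLF_cvpcomm (hCVF : CVF_stmt) {G : Type} [Group G] [Finite G] (a b : G → ℂ)
    (h : cv a b = cv b a) (k : ℕ) : cv (cvp a k) b = cv b (cvp a k) := by
  obtain ⟨hass, _, _, hu, _⟩ := hCVF G
  induction k with
  | zero =>
    show cv dl b = cv b dl
    rw [(hu b).1, (hu b).2]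
  | succ k ih =>
    show cv (cv (cvp a k) a) b = cv b (cv (cvp a k) a)
    rw [hass, h, ← hass, ih, hass]

theorem PLF_supp (hCVF : CVF_stmt) {G : Type} [Group G] [Finite G] (a : G → ℂ) (H : Subgroup G)
    (ha : ∀ x, x ∉ H → a x = 0) (k : ℕ) : ∀ x, x ∉ H → cvp a k x = 0 := by
  obtain ⟨_, _, _, _, _, hs, _⟩ := hCVF G
  induction k with
  | zero =>
    intro x hx
    show dl x = 0
    unfold dl
    rw [if_neg]
    rintro rfl
    exact hx H.one_mem
  | succ k ih => exact hs H _ a ih ha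

theorem PLF_inv (hCVF : CVF_stmt) {G : Type} [Group G] [Finite G] (a : G → ℂ) (S : Subgroup G)
    (ha : Inv S a) (k : ℕ) : Inv S (cvp a k) := by
  obtain ⟨_, _, _, _, hi, _⟩ := hCVF G
  induction k with
  | zero =>
    intro s _ x
    show dl (s * x * s⁻¹) = dl x
    unfold dl
    by_cases hx : x = 1
    · rw [if_pos hx, if_pos (by rw [hx]; group)]
    · rw [if_neg hx, if_neg]
      intro h
      apply hx
      have h2 := congrArg (fun t => s⁻¹ * t * s) h
      simpa [mul_assoc] using h2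
  | succ k ih =>
    intro s hs x
    exact hi s _ a (fun y => ih s hs y) (fun y => ha s hs y) x

theorem PLF_int (hCVF : CVF_stmt) {G : Type} [Group G] [Finite G] (a : G → ℂ) {p : ℕ}
    {M : Ideal (integralClosure ℤ ℂ)} (hS : Setup p M) (ha : ∀ x, IntAt M (a x)) (k : ℕ) :
    ∀ x, IntAt M (cvp a k x) := by
  obtain ⟨_, _, _, _, _, _, _, _, _, _, hI, _⟩ := hCVF G
  induction k with
  | zero =>
    intro x
    show IntAt M (dl x)
    unfold dl
    split_ifs
    · exact IntAt.one hS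
    · exact IntAt.zero hS
  | succ k ih => exact hI p M hS _ a ih ha

theorem PLF_idem (hCVF : CVF_stmt) {G : Type} [Group G] [Finite G] (e : G → ℂ)
    (he : cv e e = e) (k : ℕ) : cvp e (k + 1) = e := by
  induction k with
  | zero => exact PLF_one hCVF e
  | succ k ih =>
    show cv (cvp e (k + 1)) e = e
    rw [ih, he]

theorem PLF (hCVF : CVF_stmt) : PLF_stmt := by
  intro G _ _ a
  refine ⟨PLF_add hCVF a, ?_, ?_, ?_, ?_, ?_, ?_, ?_⟩
  · intro n c n' c'
    refine PLF_comm hCVF _ _ _ _ fun k => ?_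
    refine (PLF_comm hCVF _ _ _ _ fun l => ?_).symm
    rw [← PLF_add hCVF, ← PLF_add hCVF, Nat.add_comm]
  · intro b hb n c
    exact PLF_comm hCVF _ _ _ _ fun k => PLF_cvpcomm hCVF a b hb (k + 1)
  · intro H ha n c x hx
    unfold plv
    rw [Finset.sum_apply]
    refine Finset.sum_eq_zero fun k _ => ?_
    rw [Pi.smul_apply, PLF_supp hCVF a H ha (k + 1) x hx, smul_zero]
  · intro S ha n c
    refine ⟨PLF_inv hCVF a S ha n, ?_⟩
    intro s hs x
    unfold plv
    rw [Finset.sum_apply, Finset.sum_apply]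
    refine Finset.sum_congr rfl fun k _ => ?_
    rw [Pi.smul_apply, Pi.smul_apply, PLF_inv hCVF a S ha (k + 1) s hs x]
  · intro b
    refine ⟨fun h n c => ?_, fun h n c => ?_⟩
    · unfold plv
      rw [PLF_sumR hCVF]
      refine Finset.sum_congr rfl fun k _ => ?_
      rw [Nat.add_comm k 1, PLF_add hCVF a 1 k, PLF_one hCVF, ← (hCVF G).1, h]
    · unfold plv
      rw [PLF_sumL hCVF]
      refine Finset.sum_congr rfl fun k _ => ?_
      show c k • cv (cv (cvp a k) a) b = c k • cv (cvp a k) a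
      rw [(hCVF G).1, h]
  · intro p M hS ha n c hc x
    refine ⟨PLF_int hCVF a hS ha n x, ?_⟩
    unfold plv
    rw [Finset.sum_apply]
    refine IntAt.sum hS _ fun k _ => ?_
    rw [Pi.smul_apply, smul_eq_mul]
    exact IntAt.mul hS (hc k) (PLF_int hCVF a hS ha (k + 1) x)
  · intro e he n c
    unfold plv
    rw [Finset.sum_smul]
    exact Finset.sum_congr rfl fun k _ => by rw [PLF_idem hCVF e he k]

end Pool.Agent.FI
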