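import Pool.Agent.helper83.FI.SpecR

set_option autoImplicit false

namespace Pool.Agent.FI

open Pool.Agent.helper58.DC Pool.Agent.DI Pool.Agent.GR Pool.Agent.OB

/-- `z` is a sum of products of `m` elements of `T`. -/
def SA1_Q (p : ℕ) (M : Ideal (integralClosure ℤ ℂ)) (T : Set ℂ) (m : ℕ) (z : ℂ) : Prop :=
  ∀ (r : ℕ) (w : ℂ), (∀ f : Fin m → ℂ, (∀ i, f i ∈ T) → Small p M r ((∏ i, f i) * w)) →
    Small p M r (z * w)

theorem SA1_Q_mul {p : ℕ} {M : Ideal (integralClosure ℤ ℂ)} {T : Set ℂ} {m : ℕ} {z t : ℂ}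
    (hz : SA1_Q p M T m z) (ht : t ∈ T) : SA1_Q p M T (m + 1) (z * t) := by
  intro r w hw
  rw [mul_assoc]
  refine hz r (t * w) fun f hf => ?_
  have h := hw (Fin.snoc f t) (by
    intro i
    refine Fin.lastCases ?_ (fun j => ?_) i
    · rw [Fin.snoc_last]; exact ht
    · rw [Fin.snoc_castSucc]; exact hf j)
  rw [Fin.prod_univ_castSucc] at h
  simp only [Fin.snoc_castSucc, Fin.snoc_last] at h
  rwa [mul_assoc] at h

theorem SA1_Q_cvp {p : ℕ} {M : Ideal (integralClosure ℤ ℂ)} (hS : Setup p M) {G : Type} [Group G]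
    [Finite G] (d : G → ℂ) (m : ℕ) : ∀ x, SA1_Q p M (Set.range d) m (cvp d m x) := by
  haveI : Fintype G := Fintype.ofFinite G
  induction m with
  | zero =>
    intro x r w hw
    show Small p M r (dl x * w)
    unfold dl
    split_ifs
    · have h := hw (fun _ => 0) (fun i => i.elim0)
      simpa using h
    · rw [zero_mul]
      exact Small.zero' hS r
  | succ m ih =>
    intro x r w hw
    have h1 : cvp d (m + 1) x = ∑ y : G, cvp d m y * d (y⁻¹ * x) := by
      show ∑ᶠ y, cvp d m y * d (y⁻¹ * x) = _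
      rw [finsum_eq_sum_of_fintype]
    rw [h1, Finset.sum_mul]
    refine Small.sum hS _ fun y _ => ?_
    exact SA1_Q_mul (ih y) ⟨y⁻¹ * x, rfl⟩ r w hw

theorem SA1_odd {G : Type} [Group G] (d : G → ℂ) (h : cv (cv d d) d = d)
    (h1 : cvp d 1 = d) (m : ℕ) : cvp d (2 * m + 1) = d := by
  induction m with
  | zero => exact h1
  | succ m ih =>
    show cv (cv (cvp d (2 * m + 1)) d) d = d
    rw [ih, h]

theorem SA1 (hPRD : PRD_stmt) (hZEA : ZEA_stmt) (hCVF : CVF_stmt) : SA1_stmt := by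
  intro p M hS G _ _ e f he hf hee hff hef hM
  obtain ⟨hass, hadd, hsm, hu, _⟩ := hCVF G
  set d : G → ℂ := e - f with hd
  have hg1 : cv (cv e f) e = cv e f := by rw [hef, hass, hee]
  have hg2 : cv (cv e f) f = cv e f := by rw [hass, hff]
  have hdd : cv d d = (e - cv e f) - (cv e f - f) := by
    rw [hd, (hadd e f (e - f)).2.2.1, (hadd e e f).2.2.2, (hadd f e f).2.2.2, hee, hff, ← hef]
  have hddd : cv (cv d d) d = d := by
    have a1 : cv ((e - cv e f) - (cv e f - f)) e = (e - cv e f) - (cv e f - cv e f) := by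
      rw [(hadd _ _ e).2.2.1, (hadd e (cv e f) e).2.2.1, (hadd (cv e f) f e).2.2.1, hee, hg1, ← hef]
    have a2 : cv ((e - cv e f) - (cv e f - f)) f = (cv e f - cv e f) - (cv e f - f) := by
      rw [(hadd _ _ f).2.2.1, (hadd e (cv e f) f).2.2.1, (hadd (cv e f) f f).2.2.1, hff, hg2]
    rw [hdd]
    conv_lhs => rw [hd]
    rw [(hadd _ e f).2.2.2, a1, a2, hd]
    abel
  have h1 : cvp d 1 = d := (hu d).1
  have hdz : ∀ x, d x = 0 := by
    intro x
    refine hZEA p M hS _ fun r => ?_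
    obtain ⟨N, hN⟩ := hPRD p M hS (Set.range d) (Set.finite_range d)
      (by rintro t ⟨y, rfl⟩; exact hM y) r
    have h2 := SA1_Q_cvp hS d (2 * N + 1) x r 1 (fun g hg => by
      rw [mul_one]
      exact hN (2 * N + 1) (by omega) g hg)
    rw [mul_one, SA1_odd d hddd h1 N] at h2
    exact h2
  funext x
  have h3 := hdz x
  rw [hd, Pi.sub_apply] at h3
  exact sub_eq_zero.mp h3

end Pool.Agent.FI
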