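import Pool.Agent.helper83.FI.SpecR

set_option autoImplicit false

namespace Pool.Agent.FI

open Pool.Agent.helper58.DC Pool.Agent.DI Pool.Agent.GR Pool.Agent.OB

/-- all values are in the maximal ideal -/
def SA2_N (M : Ideal (integralClosure ℤ ℂ)) {G : Type} (u : G → ℂ) : Prop := ∀ x, InM M (u x)

/-- congruence -/
def SA2_E (M : Ideal (integralClosure ℤ ℂ)) {G : Type} (u v : G → ℂ) : Prop := ∀ x, InM M (u x - v x)

section
variable {M : Ideal (integralClosure ℤ ℂ)} {p : ℕ} {G : Type}

theorem SA2_E.symm {u v : G → ℂ} (h : SA2_E M u v) : SA2_E M v u := fun x => by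
  have := (h x).neg
  rwa [neg_sub] at this

theorem SA2_E.trans (hS : Setup p M) {u v w : G → ℂ} (h : SA2_E M u v) (h' : SA2_E M v w) :
    SA2_E M u w := fun x => by
  have := InM.add hS (h x) (h' x)
  rwa [sub_add_sub_cancel] at this

theorem SA2_E.refl (hS : Setup p M) (u : G → ℂ) : SA2_E M u u := fun x => by
  rw [sub_self]; exact InM.zero hS

variable [Group G] [Finite G]

theorem SA2_left (hCVF : CVF_stmt) (hS : Setup p M) {w u v : G → ℂ} (hw : ∀ x, IntAt M (w x))
    (h : SA2_E M u v) : SA2_E M (cv w u) (cv w v) := by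
  obtain ⟨_, hadd, _, _, _, _, _, _, _, _, _, hM⟩ := hCVF G
  intro x
  have h1 : cv w u x - cv w v x = cv w (u - v) x := by rw [(hadd w u v).2.2.2]; rfl
  rw [h1]
  exact hM p M hS w (u - v) hw h x

end

/-- one half: if `a ^ N = a ^ N i'` mod `M`, `i` is a polynomial in `a` without constant term, idempotent mod `M`, then
`i = i i'` mod `M` -/
theorem SA2_half (hPLF : PLF_stmt) (hCVF : CVF_stmt) {p : ℕ} {M : Ideal (integralClosure ℤ ℂ)}
    (hS : Setup p M) {G : Type} [Group G] [Finite G] (a : G → ℂ) (ha : ∀ x, IntAt M (a x))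
    (n : ℕ) (c : ℕ → ℂ) (n' : ℕ) (c' : ℕ → ℂ) (hc : ∀ k, IntAt M (c k)) (hc' : ∀ k, IntAt M (c' k))
    (hi : SA2_E M (cv (plv n c a) (plv n c a)) (plv n c a)) (N : ℕ)
    (hN : SA2_E M (cvp a N) (cv (cvp a N) (plv n' c' a))) :
    SA2_E M (plv n c a) (cv (plv n c a) (plv n' c' a)) := by
  obtain ⟨hass, hadd, hsm, hu, _, _, _, _, _, _, hI, _⟩ := hCVF G
  obtain ⟨pA, pC, pB, pS, pInv, pL, pI, pE⟩ := hPLF G a
  set i := plv n c a with hidef
  set i' := plv n' c' a with hidef'
  have hiI : ∀ x, IntAt M (i x) := fun x => (pI p M hS ha n c hc x).2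
  have haN : ∀ k x, IntAt M (cvp a k x) := fun k x => (pI p M hS ha k c hc x).1
  -- `i` is a multiple of `a`: `i = u a`
  set u : G → ℂ := ∑ k ∈ Finset.range n, c k • cvp a k with hudef
  have huI : ∀ x, IntAt M (u x) := by
    intro x
    rw [hudef, Finset.sum_apply]
    refine IntAt.sum hS _ fun k _ => ?_
    rw [Pi.smul_apply, smul_eq_mul]
    exact IntAt.mul hS (hc k) (haN k x)
  have hsum : ∀ (m : ℕ) (b : G → ℂ), cv (∑ k ∈ Finset.range m, c k • cvp a k) b =
      ∑ k ∈ Finset.range m, c k • cv (cvp a k) b := by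
    intro m b
    induction m with
    | zero =>
      have h := (hsm 0 0 b).1
      simpa using h
    | succ m ih => rw [Finset.sum_range_succ, Finset.sum_range_succ, (hadd _ _ b).1, ih, (hsm _ _ _).1]
  have hiu : i = cv u a := by
    rw [hudef, hsum, hidef]
    rfl
  have hai : cv a i = cv i a := ((pB a rfl) n c).symm
  -- powers of `i`
  have hpow : ∀ k, SA2_E M (cvp i (k + 1)) i := by
    intro k
    induction k with
    | zero =>
      have h : cvp i 1 = i := (hu i).1
      rw [h]
      exact SA2_E.refl hS i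
    | succ k ih =>
      -- cvp i (k+2) = cv (cvp i (k+1)) i
      have h1 : cvp i (k + 1 + 1) = cv i (cvp i (k + 1)) := by
        have h2 := (hPLF G i).1 1 (k + 1)
        rw [Nat.add_comm (k + 1) 1, h2]
        have h : cvp i 1 = i := (hu i).1
        rw [h]
      rw [h1]
      exact (SA2_left hCVF hS hiI ih).trans hS hi
  -- `i ^ k = v_k * a ^ k`
  have hfac : ∀ k, ∃ v : G → ℂ, (∀ x, IntAt M (v x)) ∧ cvp i k = cv v (cvp a k) := by
    intro k
    induction k with
    | zero =>
      refine ⟨dl, fun x => ?_, ?_⟩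
      · unfold dl
        split_ifs
        · exact IntAt.one hS
        · exact IntAt.zero hS
      · exact ((hu (cvp a 0)).1).symm
    | succ k ih =>
      obtain ⟨v, hv, e⟩ := ih
      refine ⟨cv v u, hI p M hS v u hv huI, ?_⟩
      show cv (cvp i k) i = cv (cv v u) (cv (cvp a k) a)
      have h3 : cv (cvp a k) i = cv i (cvp a k) := by
        have h4 := pB (cvp a k) (by
          have h5 := pA 1 k
          have h6 := pA k 1
          have h7 : cvp a 1 = a := (hu a).1
          rw [h7] at h5 h6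
          rw [← h5, ← h6, Nat.add_comm]) n c
        exact h4.symm
      rw [e, hass, h3, hiu, hass, ← hass v u]
      congr 1
      have h5 := pA 1 k
      have h6 := pA k 1
      have h7 : cvp a 1 = a := (hu a).1
      rw [h7] at h5 h6
      rw [← h5, ← h6, Nat.add_comm]
  -- replace `N` by `N + 1`
  have hN1 : SA2_E M (cvp a (N + 1)) (cv (cvp a (N + 1)) i') := by
    have h5 := pA 1 N
    have h7 : cvp a 1 = a := (hu a).1
    rw [h7] at h5
    rw [Nat.add_comm N 1, h5, hass]
    exact SA2_left hCVF hS ha hN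
  obtain ⟨v, hv, e⟩ := hfac (N + 1)
  have h8 : SA2_E M (cvp i (N + 1)) (cv (cvp i (N + 1)) i') := by
    rw [e, hass]
    exact SA2_left hCVF hS hv hN1
  -- `i i' = i' i`
  have hcom : cv i i' = cv i' i := pC n c n' c'
  have hcomp : cv (cvp i (N + 1)) i' = cv i' (cvp i (N + 1)) := by
    have h9 : ∀ k, cv (cvp i k) i' = cv i' (cvp i k) := by
      intro k
      induction k with
      | zero =>
        show cv dl i' = cv i' dl
        rw [(hu i').1, (hu i').2]
      | succ k ih =>
        show cv (cv (cvp i k) i) i' = cv i' (cv (cvp i k) i)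
        rw [hass, hcom, ← hass, ih, hass]
    exact h9 (N + 1)
  have hiI' : ∀ x, IntAt M (i' x) := fun x => (pI p M hS ha n' c' hc' x).2
  have h10 : SA2_E M (cv (cvp i (N + 1)) i') (cv i i') := by
    rw [hcomp, hcom]
    exact SA2_left hCVF hS hiI' (hpow N)
  exact ((hpow N).symm.trans hS h8).trans hS h10

theorem SA2 (hPLF : PLF_stmt) (hCVF : CVF_stmt) : SA2_stmt := by
  intro p M hS G _ _ a ha n c n' c' hc hc' hi hi' N hN hN'
  have h1 := SA2_half hPLF hCVF hS a ha n c n' c' hc hc' hi N hN'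
  have h2 := SA2_half hPLF hCVF hS a ha n' c' n c hc' hc hi' N hN
  rw [(hPLF G a).2.1 n' c' n c] at h2
  exact h1.trans hS h2.symm

end Pool.Agent.FI
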